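import Pool.Agent.Q35.ZC.Stm3
import Pool.Agent.Q222.ZC.NDS
import Pool.Agent.Q149.TT.Spe

/-!
# Project ZC (helper35), job NDT: a tangent line is not special
-/

set_option autoImplicit false

open Polynomial Pool.Agent.Y720.MZ Pool.Agent.Q35.ZC

namespace Pool.Agent.Q18.ZC

open Pool.Agent.Q35.TT Pool.Agent.Q222.ZC

theorem core {K : Type} [Field K] [CharZero K] (c : Fin 5 → Fin 5 → K) (hs : Smooth c) (s : K)
    (q : K[X]) (r : AlgebraicClosure K)
    (e2 : aeval r (pq (cx c ![1, s])) = 0) (e3 : aeval r (derivative (pq (cx c ![1, s]))) = 0)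
    (hq : ∀ t, q.eval t = bq (gd (fun i j => c j i) s) ![1, t]) :
    ¬ pq (cx c ![1, s]) ∣ q ^ 2 := by
  intro hdvd
  set φ := algebraMap K (AlgebraicClosure K) with hφ
  have e4 : aeval r q = 0 := by
    obtain ⟨p, hp⟩ := hdvd
    have := congrArg (aeval r) hp
    rw [map_pow, map_mul, e2, zero_mul] at this
    exact pow_eq_zero_iff two_ne_zero |>.1 this
  have hq' : q = pq (gd (fun i j => c j i) s) := by
    refine Polynomial.funext fun t => ?_
    rw [hq, Pool.Agent.Q121.TT.pq_eval]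
  rw [hq', aeval_pq] at e4
  rw [aeval_pq] at e2
  rw [aeval_pq'] at e3
  have c1 : (fun k => φ (cx c ![1, s] k)) = cx (fun i j => φ (c i j)) ![1, φ s] := by
    funext k
    simp only [cx, bq]
    simp
  rw [← hφ, c1] at e2 e3
  have k1 : bd (cx (fun i j => φ (c i j)) ![1, φ s]) ![1, r] 0 = 0 := by
    have := euler (cx (fun i j => φ (c i j)) ![1, φ s]) r
    rw [e2, e3] at this
    simpa using this
  have c2 : bq (fun k => φ (gd (fun i j => c j i) s k)) ![1, r] =
      bd (cy (fun i j => φ (c i j)) ![1, r]) ![1, φ s] 1 := by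
    have h2 : φ 2 = 2 := map_ofNat _ 2
    have h3 : φ 3 = 3 := map_ofNat _ 3
    have h4 : φ 4 = 4 := map_ofNat _ 4
    simp only [gd, bd, cy, bq]
    simp
    rw [h2, h3, h4]
    ring
  rw [← hφ, c2] at e4
  have c3 : bq (cy (fun i j => φ (c i j)) ![1, r]) ![1, φ s] =
      bq (cx (fun i j => φ (c i j)) ![1, φ s]) ![1, r] := by
    simp only [cx, cy, bq]
    simp
    ring
  have k2 : bd (cy (fun i j => φ (c i j)) ![1, r]) ![1, φ s] 0 = 0 := by
    have := euler (cy (fun i j => φ (c i j)) ![1, r]) (φ s)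
    rw [c3, e2, e4] at this
    simpa using this
  refine hs ![1, r] ![1, φ s] ?_ ?_ ?_ ?_
  · intro h
    exact one_ne_zero (congrFun h 0)
  · intro h
    exact one_ne_zero (congrFun h 0)
  · intro k
    fin_cases k
    · exact k1
    · exact e3
  · intro k
    fin_cases k
    · exact k2
    · exact e4

section

variable {K : Type} [Field K] (f : MvPolynomial (Fin 2) K) (hf : ∀ j, f.degreeOf j ≤ 4)
  (y : Fin 2 → AlgebraicClosure K) (s : K)

include hf

theorem av0 (hy : y 1 = algebraMap K (AlgebraicClosure K) s) :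
    MvPolynomial.aeval y f = aeval (y 0) (pq (cx (Pool.Agent.Q121.TT.cf f) ![1, s])) := by
  conv_lhs => rw [Pool.Agent.Q121.TT.rep f hf]
  rw [aeval_pq]
  simp only [Fin.sum_univ_five, bq, cx]
  simp [hy]
  ring

theorem av1 (hy : y 0 = algebraMap K (AlgebraicClosure K) s) :
    MvPolynomial.aeval y f =
      aeval (y 1) (pq (cx (fun i j => Pool.Agent.Q121.TT.cf f j i) ![1, s])) := by
  conv_lhs => rw [Pool.Agent.Q121.TT.rep f hf]
  rw [aeval_pq]
  simp only [Fin.sum_univ_five, bq, cx]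
  simp [hy]
  ring

theorem ad0 (hy : y 1 = algebraMap K (AlgebraicClosure K) s) :
    MvPolynomial.aeval y (MvPolynomial.pderiv 0 f) =
      aeval (y 0) (derivative (pq (cx (Pool.Agent.Q121.TT.cf f) ![1, s]))) := by
  conv_lhs => rw [Pool.Agent.Q121.TT.rep f hf]
  rw [aeval_pq']
  simp only [Derivation.leibniz, Derivation.leibniz_pow, MvPolynomial.pderiv_X,
    MvPolynomial.pderiv_C, smul_eq_mul, map_mul, map_add, map_pow, MvPolynomial.aeval_C,
    MvPolynomial.aeval_X, Fin.sum_univ_five, bq, bd, cx]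
  simp [hy]
  ring

theorem ad1 (hy : y 0 = algebraMap K (AlgebraicClosure K) s) :
    MvPolynomial.aeval y (MvPolynomial.pderiv 1 f) =
      aeval (y 1) (derivative (pq (cx (fun i j => Pool.Agent.Q121.TT.cf f j i) ![1, s]))) := by
  conv_lhs => rw [Pool.Agent.Q121.TT.rep f hf]
  rw [aeval_pq']
  simp only [Derivation.leibniz, Derivation.leibniz_pow, MvPolynomial.pderiv_X,
    MvPolynomial.pderiv_C, smul_eq_mul, map_mul, map_add, map_pow, MvPolynomial.aeval_C,
    MvPolynomial.aeval_X, Fin.sum_univ_five, bq, bd, cx]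
  simp [hy]
  ring

end

theorem ndt : S_NDT := by
  intro K _ _ f hf hs i j hij z ⟨y, hy, h1, h2⟩
  have hsm := Pool.Agent.Q121.TT.smooth hf hs
  have hd : ∀ a b : Fin 2, (MvPolynomial.pderiv a f).degreeOf b ≤ 4 := fun a b =>
    Pool.Agent.Q26.TT.degreeOf_pderiv (hf b) a
  have hcase : (i = 0 ∧ j = 1) ∨ (i = 1 ∧ j = 0) := by
    fin_cases i <;> fin_cases j <;> simp_all
  rcases hcase with ⟨rfl, rfl⟩ | ⟨rfl, rfl⟩
  · rw [av0 f hf y (z 1) hy] at h1
    rw [ad0 f hf y (z 1) hy] at h2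
    rw [Pool.Agent.Q121.TT.lc_zero f hf, Pool.Agent.Q121.TT.lc_zero _ (hd 1)]
    constructor
    · left
      refine core (Pool.Agent.Q121.TT.cf f) hsm (z 1) _ (y 0) h1 h2 ?_
      intro t
      rw [Pool.Agent.Q121.TT.pq_eval]
      have h1 := Pool.Agent.Q121.TT.eval_f' _ (hd 1) ![t, z 1]
      have h2 := Pool.Agent.Q121.TT.eval_d' f hf ![t, z 1]
      rw [h2] at h1
      exact h1.symm
    · exact Pool.Agent.Q149.TT.no_line _ (Pool.Agent.Q121.TT.smooth_swap hsm) (z 1)
  · rw [av1 f hf y (z 0) hy] at h1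
    rw [ad1 f hf y (z 0) hy] at h2
    rw [Pool.Agent.Q121.TT.lc_one f hf, Pool.Agent.Q121.TT.lc_one _ (hd 0)]
    constructor
    · left
      refine core (fun i j => Pool.Agent.Q121.TT.cf f j i) (Pool.Agent.Q121.TT.smooth_swap hsm)
        (z 0) _ (y 1) h1 h2 ?_
      intro t
      rw [Pool.Agent.Q121.TT.pq_eval]
      have h1 := Pool.Agent.Q121.TT.eval_f _ (hd 0) ![z 0, t]
      have h2 := Pool.Agent.Q121.TT.eval_d f hf ![z 0, t]
      rw [h2] at h1
      exact h1.symm
    · exact Pool.Agent.Q149.TT.no_line _ hsm (z 0)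

end Pool.Agent.Q18.ZC
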